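import Pool.Agent.K3h38.AD.Zeta
import Pool.Agent.K3h38.PC.Density
import Pool.Agent.K3h3.AD.Crit
import Pool.Agent.K3h6.AD.Div0
import Pool.Agent.K3h19.AD.Nosol
import Pool.Agent.K3h23.AD.Jet
import Pool.Agent.K3h24.AD.Div
import Pool.Agent.K3h25.AD.Chart
import Pool.Agent.K3h59.AD.Step
import Pool.Agent.K3h72.AD.Open
import Pool.Agent.K3h86.AD.Desc
import Pool.Agent.K3h77.AD.Kosx
import Pool.Agent.K3h99.AD.Polar

set_option autoImplicit false

/-! # The strong monodromy conjecture for almost all products of powers of given forms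

Let `F_0, ..., F_r` be forms in `m + 1` variables, `m` arbitrary. If one multivalued master function
`∏ F_i ^ a_i` (`a_i ∈ ℂ`, `∑ a_i deg F_i = 0`) has one nondegenerate critical point in the projective
space outside the hypersurfaces `F_i = 0`, then `-(m + 1)/d` is a root of the Bernstein-Sato polynomial
of `f = ∏ F_i ^ n_i` for almost all exponents `n`: for all `n` for which the degree `d` of `f` has a
prime factor `p ≥ P₀` which does not divide `Δ(n_1, ..., n_r)`, where `P₀` and the nonzero integer
polynomial `Δ` depend on the `F_i` only. The strong monodromy conjecture for these `f` follows if the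
number of variables is three (any singularities), and, for any number of variables, if the `F_i = 0`
are smooth and cross each other transversally in the projective space: the other poles are
`-1/n_i` in this case, and roots by the theory of curves in the case of three variables
(`zeta_of_root`, which rests on `Pool.Agent.W574.MO.Cone`).

The proof of `b(-(m + 1)/d) = 0` is a semiclassical limit at a prime number `p` which divides `d` (the
exponents `-(m + 1) n_i / d` are large in the `p`-adic sense):

* `stepK`: if `b(-(m + 1)/d) ≠ 0`, then the `m`-form `f ^ (-(m + 1)/d) Ω` on `P^m ∖ {f = 0}` is exact,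
  that is, the divergence of a vector field (`S_CHART`: in the chart `x_0 = 1`);
* `S_DESC`: then it is exact over every discrete valuation ring `A` of `ℂ` over which `f` is defined,
  up to a factor;
* `S_NOSOL`: if `p ∣ d` in `A`, then such a vector field can be corrected near a nondegenerate
  critical point `q` of `f` modulo `p` with `f(q) ≠ 0` so that its denominators disappear step by
  step (`S_STEP`, by the exactness of the Koszul complex of the gradient of `f`, `S_DIV`), and a vector
  field without denominators does not exist, because the form does not vanish at `q`;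
* `S_JET`: the critical points of `f` modulo `p` are those of the master function with the exponents
  `n_i` modulo `p`;
* `S_OPEN`: the exponents for which there is a nondegenerate critical point contain, over all
  fields, the complement of a hypersurface (smooth morphisms are open);
* `exists_dvr`: there are discrete valuation rings of all large residue characteristics inside `ℂ`
  over which the `F_i` are defined and in which this hypersurface is contained in `Δ = 0`;
* `density`: almost all exponents have a good prime number (Schwartz-Zippel lemma and the divergence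
  of `∑ 1/p`).

The lemmas `S_...` are proved by helpers 3, 6, 19, 23, 24, 25, 59, 72, 77, 86, 99. -/

namespace Pool.Agent.Results.MP_b07157_ag.AlmostAllMultiplicities

open MvPolynomial Pool.Agent.K3h38.AD

theorem crit : S_CRIT :=
  Pool.Agent.K3h3.AD.t_CRIT
    (Pool.Agent.K3h19.AD.t_NOSOL (Pool.Agent.K3h59.AD.t_STEP (Pool.Agent.K3h24.AD.t_DIV
      (Pool.Agent.K3h6.AD.t_DIV0 Pool.Agent.K3h77.AD.t_KOSX))))
    Pool.Agent.K3h25.AD.t_CHART Pool.Agent.K3h86.AD.t_DESC

/-- **The strong monodromy conjecture for almost all products of powers of given forms, in any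
number of variables.**

(A) Let `F_0, ..., F_r` be forms of the degrees `e_i > 0` in `m + 1` variables such that the master
function `∏ F_i ^ a_i` has a nondegenerate critical point `q` for some `a`. There are a number `P0` and
a nonzero homogeneous integer polynomial `Δ` in `r` variables such that `Conclusion` (the root
`-(m + 1)/d`, and the strong monodromy conjecture in the case of normal crossings) holds for
`f = ∏ F_i ^ n_i` whenever the degree `d = ∑ n_i e_i > 0` of `f` has a prime factor `p ≥ P0` which does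
not divide `Δ(n_1, ..., n_r)`. The set of all `n` for which it holds has the natural density one.

(B) If there are two forms (`r = 1`), then the condition on `p` is that `p ≥ P0` divides `d`, but not
both `n_0` and `n_1`.

(C) In three variables (`m = 2`), `Conclusion` implies the strong monodromy conjecture for `f`
without any condition on the singularities.

(D) Let `G = ∏ F_i` be a product of forms, `2 ≤ deg G`, let `Q = (1, q)` be a point with `G(Q) ≠ 0` and
`Hess(G)(Q) ≠ 0`, and let `ℓ = ∑ ∂_j G(Q) x_j` be the polar hyperplane of `Q`. Then `ℓ ^ (-deg G) ∏ F_i`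
has the nondegenerate critical point `q`, so that (A) holds for `ℓ, F_1, ..., F_r`, and (B) for
`ℓ` and one arbitrary form `G` with the Hessian not identically zero. -/
theorem result :
    (∀ (m r : ℕ) (F : Fin (r + 1) → MvPolynomial (Fin (m + 1)) ℂ) (e : Fin (r + 1) → ℕ),
      (∀ i, (F i).IsHomogeneous (e i)) → (∀ i, 0 < e i) →
      ∀ (a : Fin (r + 1) → ℂ) (q : Fin m → ℂ), IsCritical F e a q →
      (∃ (P0 N : ℕ) (Δ : MvPolynomial (Fin r) ℤ), Δ ≠ 0 ∧ Δ.IsHomogeneous N ∧
        ∀ (n : Fin (r + 1) → ℕ) (p : ℕ), p.Prime → P0 ≤ p → 0 < ∑ i, n i * e i →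
          p ∣ ∑ i, n i * e i → ¬ (p : ℤ) ∣ eval (fun i => (n i.succ : ℤ)) Δ →
          Conclusion F n (∑ i, n i * e i)) ∧
      ∀ ε : ℝ, 0 < ε → ∃ N0 : ℕ, ∀ N : ℕ, N0 ≤ N → ∀ T : Finset (Fin (r + 1) → ℕ),
        (∀ n ∈ T, (∀ i, 1 ≤ n i ∧ n i ≤ N) ∧ ¬ Conclusion F n (∑ i, n i * e i)) →
        (T.card : ℝ) ≤ ε * (N : ℝ) ^ (r + 1)) ∧
    (∀ (m : ℕ) (F : Fin 2 → MvPolynomial (Fin (m + 1)) ℂ) (e : Fin 2 → ℕ),
      (∀ i, (F i).IsHomogeneous (e i)) → (∀ i, 0 < e i) →
      ∀ (a : Fin 2 → ℂ) (q : Fin m → ℂ), IsCritical F e a q →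
      ∃ P0 : ℕ, ∀ (n : Fin 2 → ℕ) (p : ℕ), p.Prime → P0 ≤ p → p ∣ ∑ i, n i * e i →
        ¬ (p ∣ n 0 ∧ p ∣ n 1) → Conclusion F n (∑ i, n i * e i)) ∧
    (∀ (r : ℕ) (F : Fin (r + 1) → MvPolynomial (Fin 3) ℂ) (e n : Fin (r + 1) → ℕ),
      (∀ i, (F i).IsHomogeneous (e i)) → (∀ i, F i ≠ 0) → 0 < ∑ i, n i * e i →
      Conclusion F n (∑ i, n i * e i) →
      Pool.Agent.K3h38.PC.StrongMonodromy (∏ i, F i ^ n i) (∑ i, n i * e i)) ∧
    (∀ (m r : ℕ) (F : Fin r → MvPolynomial (Fin (m + 1)) ℂ) (e : Fin r → ℕ),
      (∀ i, (F i).IsHomogeneous (e i)) → 2 ≤ ∑ i, e i → ∀ q : Fin m → ℂ,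
      eval (Fin.cons 1 q) (∏ i, F i) ≠ 0 →
      (Matrix.of fun j l => eval (Fin.cons 1 q : Fin (m + 1) → ℂ)
        (pderiv l (pderiv j (∏ i, F i)))).det ≠ 0 →
      IsCritical (Fin.cons
        (∑ j, C (eval (Fin.cons 1 q : Fin (m + 1) → ℂ) (pderiv j (∏ i, F i))) * X j) F :
          Fin (r + 1) → MvPolynomial (Fin (m + 1)) ℂ)
        (Fin.cons 1 e) (Fin.cons (-((∑ i, e i : ℕ) : ℂ)) (fun _ => 1)) q) := by
  refine ⟨fun m r F e hF he a q hcrit => ?_, fun m F e hF he a q hcrit => ?_,
    fun r F e n hF hF0 hd h => ?_, Pool.Agent.K3h99.AD.t_POLAR⟩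
  · obtain ⟨P0, N, Δ, hΔ, hN, hmain⟩ := main_hom crit Pool.Agent.K3h23.AD.t_JET
      Pool.Agent.K3h72.AD.t_OPEN F e hF (he 0) a q hcrit
    have hSM : ∀ (n : Fin (r + 1) → ℕ) (p : ℕ), p.Prime → P0 ≤ p → 0 < ∑ i, n i * e i →
        p ∣ ∑ i, n i * e i → ¬ (p : ℤ) ∣ eval (fun i => (n i.succ : ℤ)) Δ →
        Conclusion F n (∑ i, n i * e i) := fun n p hp hpP hd hpd hn =>
      conclusion_of_root F n _ hd (prod_ne_zero_of F q hcrit.2.1 n) (prod_hom F e hF n)
        (hmain n p hp hpP hd hpd hn)
    refine ⟨⟨P0, N, Δ, hΔ, hN, hSM⟩, fun ε hε => ?_⟩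
    obtain ⟨N0, hN0⟩ := Pool.Agent.K3h38.PC.density e (he 0) P0 Δ hΔ ε hε
    refine ⟨N0, fun N hN T hT => hN0 N hN T fun n hn => ?_⟩
    obtain ⟨h5, h6⟩ := hT n hn
    refine ⟨fun i => (h5 i).2, fun p hp hpP hpd => ?_⟩
    by_contra h7
    refine h6 (hSM n p hp hpP ?_ hpd h7)
    refine Finset.sum_pos (fun i _ => Nat.mul_pos (h5 i).1 (he i)) Finset.univ_nonempty
  · obtain ⟨P0, hmain⟩ := main_two crit Pool.Agent.K3h23.AD.t_JET
      Pool.Agent.K3h72.AD.t_OPEN F e hF (he 0) (he 1) a q hcrit
    refine ⟨P0, fun n p hp hpP hpd hn => ?_⟩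
    obtain ⟨hd, h⟩ := hmain n p hp hpP hpd hn
    exact conclusion_of_root F n _ hd (prod_ne_zero_of F q hcrit.2.1 n) (prod_hom F e hF n) h
  · have hf0 : (∏ i, F i ^ n i) ≠ 0 := Finset.prod_ne_zero_iff.2 fun i _ => pow_ne_zero _ (hF0 i)
    refine Pool.Agent.K3h38.PC.strong_of_root _ hf0 _ hd (prod_hom (m := 2) F e hF n) fun b hb => ?_
    have h1 := h.1 b hb
    have h2 : ((2 + 1 : ℕ) : ℂ) = 3 := by norm_num
    rw [h2] at h1
    exact h1

end Pool.Agent.Results.MP_b07157_ag.AlmostAllMultiplicities
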