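import Pool.Agent.K3h38.PC.Edge
import Pool.Agent.K3h38.PC.Pencil

set_option autoImplicit false

/-! # The strong monodromy conjecture for forms in three variables and critical points modulo `p`

Let `f` be a form of degree `d` in three variables. All the poles of the motivic zeta functions of `f`
are roots of the Bernstein-Sato polynomial by the theory of plane curves (`zeta_of_root`, which rests
on `Pool.Agent.W574.MO.Cone`), except `-3/d`. Here `b(-3/d) = 0` is proved for forms which have, after
a linear substitution, a good reduction at a prime number `p` which divides `d`: the reduction has an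
isolated critical point outside the curve. The exponent `-3/d` is then large in the `p`-adic sense
and the argument is a semiclassical limit:

* `stepK`: if `b(-3/d) ≠ 0`, then the two-form `f ^ (-3/d) Ω` on `P² ∖ {f = 0}` is exact;
* `transform`: this is invariant under linear substitutions;
* `descent`: then it is exact over the fraction field of every discrete valuation ring `A` of `ℂ` over
  which `f` is defined;
* `no_sol`: a primitive can be corrected near the critical point so that its denominators disappear
  step by step, and a primitive without denominators does not exist, because the form does not vanish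
  at the critical point.

The condition concerns the reduction only, so that it holds for large deformations: `exists_dvr_frac`
and `dvr_adjoin` give discrete valuation rings in which given complex coefficients can be made small
by a substitution or by a transcendental parameter. -/

namespace Pool.Agent.Results.MP_b07157_ag.CriticalPointsModP

open MvPolynomial Pool.Agent.K3h38.PC

/-- The point `q` (over an extension `K` of the residue field `k` of `A`) is an isolated critical point
of `F` over `k` and does not lie on the curve `F = 0`: no irreducible polynomial which is zero at `q`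
divides all the partial derivatives, and these are not all zero. -/
def IsolatedCriticalPoint {k K : Type} [Field k] [Field K] (φ : k →+* K) (q : Fin 3 → K)
    (F : MvPolynomial (Fin 3) k) : Prop :=
  q ≠ 0 ∧ eval₂ φ q F ≠ 0 ∧ (∀ i, eval₂ φ q (pderiv i F) = 0) ∧ (∃ i, pderiv i F ≠ 0) ∧
    ∀ h : MvPolynomial (Fin 3) k, Prime h → eval₂ φ q h = 0 → ∃ i, ¬ h ∣ pderiv i F

/-- There is a discrete valuation ring `A` inside `ℂ` such that `d = 3 a` in `A` with `a` in the
maximal ideal, and a form `F` over `A` which is equal to `κ f(g x)` with `g ∈ GL₃(ℂ)`, `κ ∈ ℂ`, such that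
the reduction of `F` has an isolated critical point (over an extension of the residue field) outside
`F = 0`. -/
def GoodReduction (f : MvPolynomial (Fin 3) ℂ) (d : ℕ) : Prop :=
  ∃ (A : Type) (_ : CommRing A) (_ : IsDomain A) (_ : IsDiscreteValuationRing A) (ι : A →+* ℂ)
    (F : MvPolynomial (Fin 3) A) (a : A) (g : Matrix (Fin 3) (Fin 3) ℂ) (κ : ℂ),
    Function.Injective ι ∧ (d : A) = 3 * a ∧ a ∈ IsLocalRing.maximalIdeal A ∧ g.det ≠ 0 ∧
    map ι F = C κ * linSubst g f ∧
    ∃ (K : Type) (_ : Field K) (φ : IsLocalRing.ResidueField A →+* K) (q : Fin 3 → K),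
      IsolatedCriticalPoint φ q (map (IsLocalRing.residue A) F)

/-- `κ f(g x) = f0 + h`, where `f0` has integer coefficients, is good (`GoodModP`: it has a
nondegenerate critical point outside `f0 = 0` modulo a prime number which divides `d`) and all its
monomials have the weight `w0` for the weights `w`, and where `h` has complex coefficients and
monomials of the weights `> w0` only. -/
def GoodInitialForm (f : MvPolynomial (Fin 3) ℂ) (d : ℕ) : Prop :=
  ∃ (f0 : MvPolynomial (Fin 3) ℤ) (h : MvPolynomial (Fin 3) ℂ) (w : Fin 3 → ℕ) (w0 : ℕ)
    (g : Matrix (Fin 3) (Fin 3) ℂ) (κ : ℂ), GoodModP f0 d ∧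
    (∀ m ∈ f0.support, ∑ i, w i * m i = w0) ∧ (∀ m ∈ h.support, w0 < ∑ i, w i * m i) ∧
    g.det ≠ 0 ∧ C κ * linSubst g f = map (Int.castRingHom ℂ) f0 + h

/-- `f` is a form of degree `d ≥ 4` which contains `x^d` and `x^(d-2) y z` and otherwise only
monomials `x^k y^i z^j` with `j > i`. -/
def GoodEdge (f : MvPolynomial (Fin 3) ℂ) (d : ℕ) : Prop :=
  4 ≤ d ∧ coeff (Finsupp.single 0 d) f ≠ 0 ∧
    coeff (Finsupp.single 0 (d - 2) + Finsupp.single 1 1 + Finsupp.single 2 1) f ≠ 0 ∧
    ∀ m ∈ f.support, m 2 ≤ m 1 → m = Finsupp.single 0 d ∨
      m = Finsupp.single 0 (d - 2) + Finsupp.single 1 1 + Finsupp.single 2 1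

/-- **The strong monodromy conjecture and critical points modulo `p`.** `StrongMonodromy f d` is the
conjecture, global and local at the origin, for the form `f` of degree `d`, together with
`b(-3/d) = 0`. It holds for every form `f` of degree `d` in three variables such that

(1) `GoodReduction f d`, or (2) `GoodInitialForm f d`, or (3) `GoodEdge f d`.

(4) Pencils: if `f0` is good and `h` is any form of the same degree, then it holds for `f0 + s h` for
all but countably many `s ∈ ℂ`.

(5) The form `x^d + x^(d-2) y z` is good if `d ≥ 4`. -/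
theorem result :
    (∀ (f : MvPolynomial (Fin 3) ℂ) (d : ℕ), 0 < d → f.IsHomogeneous d →
      (GoodReduction f d → StrongMonodromy f d) ∧ (GoodInitialForm f d → StrongMonodromy f d) ∧
      (GoodEdge f d → StrongMonodromy f d)) ∧
    (∀ (f0 : MvPolynomial (Fin 3) ℤ) (d : ℕ), 0 < d →
      (map (Int.castRingHom ℂ) f0).IsHomogeneous d → GoodModP f0 d →
      ∀ h : MvPolynomial (Fin 3) ℂ, h.IsHomogeneous d →
      {s : ℂ | ¬ StrongMonodromy (map (Int.castRingHom ℂ) f0 + C s * h) d}.Countable) ∧
    (∀ d : ℕ, 4 ≤ d → GoodModP (X 0 ^ d + X 0 ^ (d - 2) * X 1 * X 2) d) := by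
  refine ⟨fun f d hd hf => ⟨?_, ?_, ?_⟩, ?_, ?_⟩
  · rintro ⟨A, _, _, _, ι, F, a, g, κ, hι, had, ha, hg, hfF, K, _, φ, q, hq, hF, hcr, hD, hiso⟩
    exact strong_of_dvr ι hι φ q F d hd a had ha hq hF hcr hD hiso f hf g hg κ hfF
  · rintro ⟨f0, h, w, w0, g, κ, hgood, hw, hh, hg, hfF⟩
    exact initial_form f0 d hd hgood w w0 hw h hh f hf g hg κ hfF
  · rintro ⟨hd4, hA, hB, hsupp⟩
    exact edge d hd4 f hf hA hB hsupp
  · intro f0 d hd hf0 hgood h hh
    exact pencil f0 d hd hf0 hgood h hh
  · intro d hd
    exact edgeForm_good d hd

end Pool.Agent.Results.MP_b07157_ag.CriticalPointsModP
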