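import Pool.Agent.K3h38.HH.Zeta
import Pool.Agent.K3h3.HH.Init
import Pool.Agent.K3h11.HH.Hom
import Pool.Agent.K3h15.HH.Reg
import Pool.Agent.K3h19.HH.Low
import Pool.Agent.K3h60.HH.Red
import Pool.Agent.K3h85.HH.End
import Pool.Agent.K3h87.FM.Fermat

set_option autoImplicit false

/-! # The strong monodromy conjecture for hyperplanes and a transversal hypersurface

Let `G` be a form of degree `e ≥ 2` in `N` variables, `N` arbitrary, such that the hypersurface
`G = 0` of `P^(N-1)` is smooth and transversal to all the intersections of the hyperplanes `X_i = 0`,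
`i ∈ I`. The strong monodromy conjecture holds for `f = ∏ X_i ^ (a i) G ^ b` for all multiplicities
`a i ≥ 1` (`i ∈ I`) and `b ≥ 1`. The condition on `G` is used in the form: the `N` polynomials
`X_i ∂_i G` (`i ∈ I`), `∂_i G` (`i ∉ I`) are a regular sequence (they have no common zero except the
origin), or only: all the relations between them are combinations of the Koszul relations.

Proof. If `-N/d` is not a root, then `f ^ (-N/d) Ω` is the divergence of a vector field with poles
along `f = 0` (`stepK`). Write the field in the basis `X_i ∂_i` (`i ∈ I`), `∂_i` (`i ∉ I`) (`S_INIT`).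
The poles along the hyperplanes are lowered step by step, at the expense of poles along `G = 0`, by
adding the divergence of the bivector `X_i ∂_i ∧ (...)` (`S_LOW`). Then the poles along `G = 0` are
lowered step by step: the leading term is a relation between the polynomials above, and so a
Koszul relation, up to a multiple of the Euler field, which has the divergence zero (`S_RED`). Finally,
a field without poles is linear, and is again a Koszul relation plus a multiple of the Euler
field, and its divergence is zero, because the matrix of the second derivatives is symmetric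
(`S_END`).

The lemmas `S_...` are proved by helpers 3, 11, 15, 19, 60, 85, 87. -/

namespace Pool.Agent.Results.MP_b07157_ag.HyperplanesAndHypersurface

open MvPolynomial Pool.Agent.K3h38.HH

/-- **The strong monodromy conjecture for `∏ X_i ^ (a i) G ^ b`, in any number of variables and with
arbitrary multiplicities.** (1) if the relations between the `X_i ∂_i G` (`a i ≠ 0`) and `∂_i G`
(`a i = 0`) are Koszul relations, (2) if these polynomials are a regular sequence, (3) if
`G = ∑ c_l X_l ^ e` is a Fermat form. -/
theorem result :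
    (∀ (N e b : ℕ) (a : Fin N → ℕ) (G : MvPolynomial (Fin N) ℂ), 0 < N → 2 ≤ e → 1 ≤ b →
      G.IsHomogeneous e → G ≠ 0 → (∀ i, a i ≠ 0 → ¬ X i ∣ G) →
      (KE (fun i => lg a i G) ∨
        RingTheory.Sequence.IsWeaklyRegular (MvPolynomial (Fin N) ℂ)
          (List.ofFn fun i => lg a i G)) →
      StrongMonodromyN a b ((∑ i, a i) + b * e) G) ∧
    (∀ (N e b : ℕ) (a : Fin N → ℕ) (c : Fin N → ℂ), 2 ≤ N → 2 ≤ e → 1 ≤ b → (∀ i, c i ≠ 0) →
      StrongMonodromyN a b ((∑ i, a i) + b * e) (∑ l, C (c l) * X l ^ e)) := by
  have main : ∀ (N e b : ℕ) (a : Fin N → ℕ) (G : MvPolynomial (Fin N) ℂ), 0 < N → 2 ≤ e → 1 ≤ b →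
      G.IsHomogeneous e → G ≠ 0 → (∀ i, a i ≠ 0 → ¬ X i ∣ G) → KE (fun i => lg a i G) →
      StrongMonodromyN a b ((∑ i, a i) + b * e) G :=
    fun N e b a G hN he hb hG hG0 hX hKE =>
      strong_of_root a b e hN hb he G hG hG0 hX (root Pool.Agent.K3h3.HH.t_INIT
        Pool.Agent.K3h19.HH.t_LOW Pool.Agent.K3h11.HH.t_HOM Pool.Agent.K3h60.HH.t_RED
        Pool.Agent.K3h85.HH.t_END hN e b he hb a G hG hG0 hX hKE)
  refine ⟨fun N e b a G hN he hb hG hG0 hX hKE => main N e b a G hN he hb hG hG0 hX ?_, ?_⟩
  · rcases hKE with h | h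
    · exact h
    · exact Pool.Agent.K3h15.HH.t_REG N _ h
  · intro N e b a c hN he hb hc
    have hev : ∀ x : Fin N → ℂ, eval x (∑ l, C (c l) * X l ^ e : MvPolynomial (Fin N) ℂ) =
        ∑ l, c l * x l ^ e := fun x => by simp
    refine main N e b a _ (by omega) he hb ?_ ?_ ?_ (Pool.Agent.K3h87.FM.t_FERMAT N e a c he hc)
    · refine IsHomogeneous.sum _ _ _ fun l _ => ?_
      have := (isHomogeneous_C (Fin N) (c l)).mul ((isHomogeneous_X ℂ l).pow e)
      rwa [zero_add, one_mul] at this
    · intro h
      have h1 := hev (Pi.single ⟨0, by omega⟩ 1)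
      rw [h, map_zero, Finset.sum_eq_single (⟨0, by omega⟩ : Fin N)] at h1
      · rw [Pi.single_eq_same, one_pow, mul_one] at h1
        exact hc _ h1.symm
      · intro l _ hl
        rw [Pi.single_eq_of_ne hl, zero_pow (by omega), mul_zero]
      · intro h2
        exact absurd (Finset.mem_univ _) h2
    · intro i _ hdvd
      obtain ⟨l, hl⟩ : ∃ l : Fin N, l ≠ i := by
        have : Nontrivial (Fin N) := Fin.nontrivial_iff_two_le.2 hN
        exact exists_ne i
      obtain ⟨q, hq⟩ := hdvd
      have h1 := hev (Pi.single l 1)
      rw [hq, map_mul, eval_X, Pi.single_eq_of_ne hl.symm, zero_mul, Finset.sum_eq_single l] at h1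
      · rw [Pi.single_eq_same, one_pow, mul_one] at h1
        exact hc _ h1.symm
      · intro l' _ hl'
        rw [Pi.single_eq_of_ne hl', zero_pow (by omega), mul_zero]
      · intro h2
        exact absurd (Finset.mem_univ _) h2

end Pool.Agent.Results.MP_b07157_ag.HyperplanesAndHypersurface
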