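import Pool.Agent.K3h38.LT.Prod
import Pool.Agent.K3h38.PC.Strong

set_option autoImplicit false

/-! # The strong monodromy conjecture for all forms in three variables whose reduced curve has only
quasi-homogeneous singularities

Let `f = ∏ F_i ^ n_i` be a form of degree `d` in `x = (x_0, x_1, x_2)`, where `G = ∏ F_i` is squarefree
and the multiplicities `n_i ≥ 1` are arbitrary. By the theory of plane curves (`proj_mot`, in
`Pool.Agent.W574.MO.Cone`) all the poles of the motivic zeta functions except `-3/d` are roots. The proof
of `b(-3/d) = 0`:

* Let `v = G ∇f / f`, a vector of polynomials without common factor. `linear_type`: every relation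
  `σ(x, v) = 0`, where `σ(x, y)` is homogeneous in `y`, is a consequence of the linear relations
  `∑ A_j y_j`. This is proved near each point `q` of the projective plane (`local_lin`: at a
  singular point there is a vector field `A` with `A f = 0` and `A(q) ≠ 0`, so that `y_j` with
  `A_j(q) ≠ 0` can be eliminated, and the two remaining components of `v` are relatively prime at
  `q`), and the local solutions are glued (`glue_abs`: the projective plane has no cohomology
  `H^1(O(k))`).
* `lam_zero`: therefore a differential operator which annihilates all the `f ^ s` is a sum of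
  operators `Q A` with vector fields `A`, `A f = 0`, by induction on the order (its symbol is such a
  relation, `lead_op`). If it is written as `∑ ∂ ^ m u_m` with polynomials `u_m`, then `u_0(0) = 0`,
  because the linear part of `A` has trace zero.
* `root`: if `b(s) f ^ s = P(s) f ^ (s + 1)`, the operator `b(E/d) - ∑ P_m f (E/d) ^ m`, where
  `E = ∑ x_j ∂_j`, annihilates all the `f ^ s`, and for this operator `u_0(0) = b(-3/d)`. -/

namespace Pool.Agent.Results.MP_b07157_ag.QuasiHomogeneousCurves

open MvPolynomial Pool.Agent.K3h38.PC Pool.Agent.K3h38.LT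

/-- **The strong motivic monodromy conjecture, global (Q1) and local at the origin (Q2), for the
forms `f = ∏ F_i ^ n_i` of degree `d` in three variables whose reduced curve `G = ∏ F_i = 0` has
only quasi-homogeneous singularities.** The `F_i` are forms, `G` is squarefree, the multiplicities
`n_i ≥ 1` are arbitrary. The assumptions are:

* `hlin`: no linear vector field `A` of trace zero has the property `A f = μ f` with `μ ≠ 0` (this
  holds for example if the curve is not invariant under infinitely many projective
  transformations);
* `hsing`: for every singular point `q` of the curve there is a polynomial vector field `A` with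
  `A f = 0` and `A(q) ≠ 0`. This holds if (and only if) the curve is quasi-homogeneous at `q` (that is,
  given by a weighted homogeneous polynomial in suitable local analytic coordinates): if a vector
  field `B` at `q` is tangent to the curves `F_i = 0`, `B F_i = s_i F_i`, and has the initial part
  `w_0 x ∂/∂x + w_1 y ∂/∂y`, take `A = (∑ n_i s_i) E - d B`, where `E` is the Euler vector field.

`StrongMonodromy f d` consists of `b(-3/d) = 0` and the conjecture. -/
theorem result {ι : Type} [Fintype ι] (F : ι → MvPolynomial (Fin 3) ℂ) (n e : ι → ℕ)
    (hsq : Squarefree (∏ i, F i)) (hn : ∀ i, 0 < n i)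
    (hF : ∀ i, (F i).IsHomogeneous (e i)) (d : ℕ) (hd : 0 < d) (hde : ∑ i, n i * e i = d)
    (hlin : ∀ (A : Matrix (Fin 3) (Fin 3) ℂ) (μ : ℂ), A.trace = 0 →
      ∑ j, (∑ k, C (A j k) * X k) * pderiv j (∏ i, F i ^ n i) = C μ * ∏ i, F i ^ n i → μ = 0)
    (hsing : ∀ q : Fin 3 → ℂ, q ≠ 0 → (∀ j, eval q (pderiv j (∏ i, F i)) = 0) →
      ∃ A : Fin 3 → MvPolynomial (Fin 3) ℂ,
        ∑ j, A j * pderiv j (∏ i, F i ^ n i) = 0 ∧ ∃ j, eval q (A j) ≠ 0) :
    StrongMonodromy (∏ i, F i ^ n i) d := by
  classical
  have hf0 : ∏ i, F i ^ n i ≠ 0 := Finset.prod_ne_zero_iff.2 fun i _ =>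
    pow_ne_zero _ ((Finset.prod_ne_zero_iff.1 hsq.ne_zero) i (Finset.mem_univ i))
  have hfh : (∏ i, F i ^ n i).IsHomogeneous d := by
    rw [← hde]
    refine IsHomogeneous.prod _ _ _ fun i _ => ?_
    rw [mul_comm]
    exact (hF i).pow (n i)
  exact strong_of_root _ hf0 d hd hfh fun b hb =>
    root_prod F hsq n e hn hF d hd hde hlin hsing b hb

end Pool.Agent.Results.MP_b07157_ag.QuasiHomogeneousCurves
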